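import Pool.Agent.Helper40.Hered.Final

/-!
A non-hereditary C*-algebra all of whose commutative C*-subalgebras are hereditary.

The algebra is the closed *-subalgebra of `ℓ^∞(T; M_2) × ℓ^∞(2^ℕ)` (`T` the binary tree) generated
by `c_0(T; M_2) × 0` and the projections `(p_x, δ_x)`, `x ∈ 2^ℕ`, where `p_x` lives on the branch
`x` and its value at the node `x|n` is one of two fixed non-commuting rank one projections, chosen
by the next digit `x n`. All its commutative C*-subalgebras are separable, and it is not projective
as a left module over itself.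
-/

namespace Pool.Agent.Results.MP_b18d32_an.NonHereditaryTreeAlgebra

universe u v w

/-- `act` makes the Banach space `X` a left Banach `A`-module: it is bilinear, associative and
(jointly) continuous. -/
structure IsLeftModule {A : Type u} {X : Type v} [NonUnitalNormedRing A] [NormedSpace ℂ A]
    [NormedAddCommGroup X] [NormedSpace ℂ X] (act : A → X → X) : Prop where
  add_left : ∀ a b x, act (a + b) x = act a x + act b x
  smul_left : ∀ (c : ℂ) a x, act (c • a) x = c • act a x
  add_right : ∀ a x y, act a (x + y) = act a x + act a y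
  smul_right : ∀ (c : ℂ) a x, act a (c • x) = c • act a x
  mul_act : ∀ a b x, act (a * b) x = act a (act b x)
  bound : ∃ C : ℝ, ∀ a x, ‖act a x‖ ≤ C * ‖a‖ * ‖x‖

/-- The left Banach `A`-module `P` is projective: for every admissible epimorphism `σ : X → Y` of
left Banach `A`-modules (one with a bounded linear right inverse `τ`) and every module morphism
`φ : P → Y` there is a module morphism `ψ : P → X` with `σ ∘ ψ = φ`. -/
def IsProjectiveModule {A : Type u} {P : Type w} [NonUnitalNormedRing A] [NormedSpace ℂ A]
    [NormedAddCommGroup P] [NormedSpace ℂ P] (actP : A → P → P) : Prop :=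
  ∀ (X Y : Type v) [NormedAddCommGroup X] [NormedSpace ℂ X] [CompleteSpace X]
    [NormedAddCommGroup Y] [NormedSpace ℂ Y] [CompleteSpace Y]
    (actX : A → X → X) (actY : A → Y → Y), IsLeftModule actX → IsLeftModule actY →
    ∀ (σ : X →L[ℂ] Y) (φ : P →L[ℂ] Y), (∀ a x, σ (actX a x) = actY a (σ x)) →
    (∃ τ : Y →L[ℂ] X, ∀ y, σ (τ y) = y) → (∀ a x, φ (actP a x) = actY a (φ x)) →
    ∃ ψ : P →L[ℂ] X, (∀ a x, ψ (actP a x) = actX a (ψ x)) ∧ ∀ x, σ (ψ x) = φ x

/-- The Banach algebra `A` is (left) hereditary: every closed left ideal of `A`, regarded as a left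
Banach `A`-module, is projective. -/
def IsHereditaryAlgebra (A : Type u) [NonUnitalNormedRing A] [NormedSpace ℂ A] : Prop :=
  ∀ (I : Submodule ℂ A) (hI : ∀ (a x : A), x ∈ I → a * x ∈ I), IsClosed (I : Set A) →
    IsProjectiveModule.{u, v, u} (fun (a : A) (x : I) => (⟨a * x, hI a x x.2⟩ : I))

open Pool.Agent.Helper40.Hered
open scoped ComplexOrder

/-- bundling a module structure -/
noncomputable def toBanachAction {A : Type u} {X : Type v} [NonUnitalNormedRing A]
    [NormedSpace ℂ A] [NormedAddCommGroup X] [NormedSpace ℂ X] {act : A → X → X}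
    (h : IsLeftModule act) : BanachAction A X where
  act := LinearMap.mkContinuous₂
    (LinearMap.mk₂ ℂ act h.add_left h.smul_left h.add_right h.smul_right) h.bound.choose
    h.bound.choose_spec
  act_mul := h.mul_act

theorem isLeftModule_of {A : Type u} {X : Type v} [NonUnitalNormedRing A]
    [NormedSpace ℂ A] [NormedAddCommGroup X] [NormedSpace ℂ X] (a : BanachAction A X) :
    IsLeftModule (fun b x => a.act b x) where
  add_left := fun b c x => by rw [map_add]; rfl
  smul_left := fun c b x => by rw [map_smul]; rfl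
  add_right := fun b x y => by rw [map_add]
  smul_right := fun c b x => by rw [map_smul]
  mul_act := a.act_mul
  bound := ⟨‖a.act‖, fun b x => a.act.le_opNorm₂ b x⟩

theorem isProjectiveModule_iff {A : Type u} {P : Type w} [NonUnitalNormedRing A]
    [NormedSpace ℂ A] [NormedAddCommGroup P] [NormedSpace ℂ P] (aP : BanachAction A P) :
    IsProjectiveModule.{u, v, w} (fun a x => aP.act a x) ↔ IsProjective.{u, v, w} aP := by
  constructor
  · intro h X Y _ _ _ _ _ _ aX aY σ φ hσ hτ hφ
    exact h X Y (fun a x => aX.act a x) (fun a x => aY.act a x) (isLeftModule_of aX)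
      (isLeftModule_of aY) σ φ hσ hτ hφ
  · intro h X Y _ _ _ _ _ _ actX actY hX hY σ φ hσ hτ hφ
    exact h X Y (toBanachAction hX) (toBanachAction hY) σ φ hσ hτ hφ

theorem isHereditaryAlgebra_iff {A : Type u} [NonUnitalNormedRing A] [NormedSpace ℂ A]
    [IsScalarTower ℂ A A] [SMulCommClass ℂ A A] :
    IsHereditaryAlgebra.{u, v} A ↔ IsHereditary.{u, v} A := by
  constructor
  · intro h I hI hc
    exact (isProjectiveModule_iff _).1 (h I hI hc)
  · intro h I hI hc
    exact (isProjectiveModule_iff _).2 (h I hI hc)

/-- There is a C*-algebra which is not hereditary although every commutative C*-subalgebra of it is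
hereditary. -/
theorem result : ∃ (A : Type) (_ : NonUnitalCStarAlgebra A), ¬ IsHereditaryAlgebra.{0, v} A ∧
    ∀ B : NonUnitalStarSubalgebra ℂ A, IsClosed (B : Set A) →
      (∀ x ∈ B, ∀ y ∈ B, x * y = y * x) → IsHereditaryAlgebra.{0, v} B := by
  refine ⟨TreeAlg, instAA (P := PP) (hsa := PP_sa) (hidem := PP_idem), ?_, ?_⟩
  · intro h
    exact not_hereditary PP_ne (isHereditaryAlgebra_iff.1 h).down
  · intro B hB hc
    exact isHereditaryAlgebra_iff.2 (hereditary_of_comm B hB hc)

end Pool.Agent.Results.MP_b18d32_an.NonHereditaryTreeAlgebra
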